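import Mathlib
import Pool.Agent.R859.QS.Rot

/-!
# Rotations of inverse descent classes

For every `n = k + 1` and every `J`, the sets `C_n D_{n-1,J}⁻¹` and `D_{n-1,J}⁻¹ C_n` have the same
quasisymmetric function.
-/

set_option autoImplicit false

namespace Pool.Agent.Results.MP_f75e32_co.RotationsAgree

open Pool.Agent.R859.QS

theorem result (k : ℕ) (J : Finset ℕ) :
    QF (prodM (rot (k + 1)) (invDesExt k J)) = QF (prodM (invDesExt k J) (rot (k + 1))) :=
  QF_rot k J

end Pool.Agent.Results.MP_f75e32_co.RotationsAgree
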